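import Pool.Agent.Helper71.UQ.Goals

/-!
# MP_9b2a83_an, project UQ, packet COMB: three step networks at dyadic scales
-/

set_option autoImplicit false

namespace Pool.Agent.Helper94.UQ.PkCOMB

open Pool.Agent.Helper39.Net
open Pool.Agent.Helper71.UQ
open Finset

/-- the block of `z` at the scale `κ` -/
def Bl {d : ℕ} (T : Finset (Fin d)) (τ : ℕ) (X : Finset (Fin d → ℤ)) (κ : Fin d → ℕ)
    (z : Fin d → ℤ) : Finset (Fin d → ℤ) := by
  classical
  exact X.filter (fun x => (∀ i ∈ T, x i / 2 ^ (κ i) = 2 * (z i / 2 ^ (κ i + 1))) ∧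
    (∀ i, i ∉ T → x i / 2 ^ (κ i + τ) = z i / 2 ^ (κ i + τ)))

lemma mem_Bl {d : ℕ} {T : Finset (Fin d)} {τ : ℕ} {X : Finset (Fin d → ℤ)} {κ : Fin d → ℕ}
    {z x : Fin d → ℤ} : x ∈ Bl T τ X κ z ↔ x ∈ X ∧
      (∀ i ∈ T, x i / 2 ^ (κ i) = 2 * (z i / 2 ^ (κ i + 1))) ∧
      (∀ i, i ∉ T → x i / 2 ^ (κ i + τ) = z i / 2 ^ (κ i + τ)) := by
  classical
  unfold Bl
  rw [mem_filter]

lemma mem_Ico_of_ediv {x c : ℤ} {k : ℕ} (h : x / 2 ^ k = c) :
    x ∈ Finset.Ico (c * 2 ^ k) (c * 2 ^ k + 2 ^ k) := by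
  rw [Finset.mem_Ico]
  have hp : (0 : ℤ) < 2 ^ k := by positivity
  have h1 := Int.emod_add_mul_ediv x (2 ^ k)
  have h2 := Int.emod_nonneg x hp.ne'
  have h3 := Int.emod_lt_of_pos x hp
  rw [h] at h1
  have e : (2 : ℤ) ^ k * c = c * 2 ^ k := mul_comm _ _
  constructor
  · linarith
  · linarith

lemma lt_of_ediv {x c : ℤ} {k : ℕ} (h : x / 2 ^ k = c) : x < (c + 1) * 2 ^ k := by
  have := (Finset.mem_Ico.mp (mem_Ico_of_ediv h)).2
  linarith

lemma ge_of_ediv {x c : ℤ} {k : ℕ} (h : x / 2 ^ k = c) : c * 2 ^ k ≤ x :=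
  (Finset.mem_Ico.mp (mem_Ico_of_ediv h)).1

lemma card_Bl {d τ Λ : ℕ} {T : Finset (Fin d)} {g : ℕ → ℕ} (hg : ∀ j, g j ≤ j ∧ j < g j + τ)
    {j : Fin d → ℕ} (hj : ∑ i, (j i + 1 + τ) ≤ Λ) (X : Finset (Fin d → ℤ)) (z : Fin d → ℤ) :
    (Bl T τ X (key T g j) z).card ≤ 2 ^ Λ := by
  classical
  set κ := key T g j with hκ
  set e : Fin d → ℕ := fun i => if i ∈ T then κ i else κ i + τ with he
  set c : Fin d → ℤ := fun i => if i ∈ T then 2 * (z i / 2 ^ (κ i + 1)) else z i / 2 ^ (κ i + τ)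
    with hc
  have hsub : Bl T τ X κ z ⊆
      Fintype.piFinset (fun i => Finset.Ico (c i * 2 ^ (e i)) (c i * 2 ^ (e i) + 2 ^ (e i))) := by
    intro x hx
    rw [mem_Bl] at hx
    rw [Fintype.mem_piFinset]
    intro i
    apply mem_Ico_of_ediv
    by_cases hi : i ∈ T
    · rw [he, hc]
      simp only [if_pos hi]
      exact hx.2.1 i hi
    · rw [he, hc]
      simp only [if_neg hi]
      exact hx.2.2 i hi
  refine (card_le_card hsub).trans ?_
  rw [Fintype.card_piFinset]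
  have h1 : ∀ i : Fin d, (Finset.Ico (c i * 2 ^ (e i)) (c i * 2 ^ (e i) + 2 ^ (e i))).card =
      2 ^ (e i) := by
    intro i
    rw [Int.card_Ico, add_sub_cancel_left]
    have : ((2 : ℤ) ^ (e i)) = ((2 ^ (e i) : ℕ) : ℤ) := by push_cast; rfl
    rw [this, Int.toNat_natCast]
  rw [prod_congr rfl (fun i _ => h1 i), prod_pow_eq_pow_sum]
  apply Nat.pow_le_pow_right (by norm_num)
  refine le_trans (sum_le_sum ?_) hj
  intro i _
  rw [he]
  simp only
  split_ifs with hi
  · rw [hκ]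
    unfold key
    rw [if_pos hi]
    omega
  · rw [hκ]
    unfold key
    rw [if_neg hi]
    have := (hg (j i)).1
    omega

/-- the hub of `a` -/
def vv {d : ℕ} (T : Finset (Fin d)) (a : Fin d → ℤ) (κ : Fin d → ℕ)
    (q : Finset (Fin d) × (Fin d → ℤ)) : Fin d → ℤ :=
  fun i => if i ∈ q.1 then q.2 i else
    if i ∈ T then (2 * (a i / 2 ^ (κ i + 1)) + 1) * 2 ^ (κ i)
    else (a i / 2 ^ (κ i) + 1) * 2 ^ (κ i)

/-- the hub of `b` -/
def ww {d : ℕ} (T : Finset (Fin d)) (b : Fin d → ℤ) (κ : Fin d → ℕ)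
    (q : Finset (Fin d) × (Fin d → ℤ)) : Fin d → ℤ :=
  fun i => if i ∈ q.1 then q.2 i else
    if i ∈ T then (2 * (b i / 2 ^ (κ i + 1)) + 1) * 2 ^ (κ i)
    else (b i / 2 ^ (κ i)) * 2 ^ (κ i)

/-- the positions of the ends of the edges between hubs -/
def pos {d : ℕ} (T : Finset (Fin d)) (τ : ℕ) (T' : Finset (Fin d)) (x0 : Fin d → ℤ)
    (κ : Fin d → ℕ) (n : Fin d → ℕ) : Fin d → ℤ :=
  fun i => if i ∈ T' then x0 i else
    if i ∈ T then (2 * (x0 i / 2 ^ (κ i + 1)) + 1) * 2 ^ (κ i)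
    else ((x0 i / 2 ^ (κ i + τ)) * 2 ^ τ + (n i : ℤ)) * 2 ^ (κ i)

/-- the offsets -/
def NN {d : ℕ} (T : Finset (Fin d)) (τ : ℕ) : Finset (Fin d → ℕ) :=
  Fintype.piFinset (fun i => if i ∈ T then {0} else Finset.range (2 ^ τ + 1))

lemma card_NN {d : ℕ} (T : Finset (Fin d)) (τ : ℕ) :
    (NN T τ).card = (2 ^ τ + 1) ^ (d - T.card) := by
  classical
  unfold NN
  rw [Fintype.card_piFinset]
  have h1 : ∀ i : Fin d, (if i ∈ T then ({0} : Finset ℕ) else Finset.range (2 ^ τ + 1)).card =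
      if i ∈ T then 1 else 2 ^ τ + 1 := by
    intro i
    split_ifs
    · rfl
    · rw [card_range]
  rw [prod_congr rfl (fun i _ => h1 i), prod_ite]
  rw [prod_const_one, one_mul, prod_const]
  congr 1
  have h2 : (univ.filter (fun i => ¬ i ∈ T)) = univ \ T := by
    ext i
    simp
  rw [h2, card_sdiff_of_subset (subset_univ T), card_univ, Fintype.card_fin]

lemma mem_NN {d : ℕ} {T : Finset (Fin d)} {τ : ℕ} {n : Fin d → ℕ} :
    n ∈ NN T τ ↔ ∀ i, (i ∈ T → n i = 0) ∧ (i ∉ T → n i ≤ 2 ^ τ) := by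
  classical
  unfold NN
  rw [Fintype.mem_piFinset]
  constructor
  · intro h i
    have h1 := h i
    constructor
    · intro hi
      rw [if_pos hi, mem_singleton] at h1
      exact h1
    · intro hi
      rw [if_neg hi, mem_range] at h1
      omega
  · intro h i
    by_cases hi : i ∈ T
    · rw [if_pos hi, mem_singleton]
      exact (h i).1 hi
    · rw [if_neg hi, mem_range]
      have := (h i).2 hi
      omega

lemma ediv_pow_pow (x : ℤ) (k l : ℕ) : x / 2 ^ k / 2 ^ l = x / 2 ^ (k + l) := by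
  rw [Int.ediv_ediv_of_nonneg (by positivity), ← pow_add]

lemma ediv_pow_two (x : ℤ) (k : ℕ) : x / 2 ^ k / 2 = x / 2 ^ (k + 1) := by
  have := ediv_pow_pow x k 1
  rw [pow_one] at this
  exact this

lemma ediv_eq_of_le {x y : ℤ} {k l : ℕ} (h : x / 2 ^ k = y / 2 ^ k) (hl : k ≤ l) :
    x / 2 ^ l = y / 2 ^ l := by
  obtain ⟨r, rfl⟩ := Nat.exists_eq_add_of_le hl
  rw [← ediv_pow_pow, ← ediv_pow_pow, h]

lemma ediv_lt_of_le {x y : ℤ} {k l : ℕ} (h : x / 2 ^ l < y / 2 ^ l) (hl : k ≤ l) :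
    x / 2 ^ k < y / 2 ^ k := by
  by_contra hc
  push Not at hc
  obtain ⟨r, rfl⟩ := Nat.exists_eq_add_of_le hl
  rw [← ediv_pow_pow, ← ediv_pow_pow] at h
  have := Int.ediv_le_ediv (show (0 : ℤ) < 2 ^ r by positivity) hc
  omega

/-- the offset of a position in its block -/
lemma offset (x : ℤ) (k τ : ℕ) : ∃ n : ℕ, n < 2 ^ τ ∧
    x / 2 ^ k = (x / 2 ^ (k + τ)) * 2 ^ τ + (n : ℤ) := by
  have hp : (0 : ℤ) < 2 ^ τ := by positivity
  have h1 := Int.emod_add_mul_ediv (x / 2 ^ k) (2 ^ τ)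
  have h2 := Int.emod_nonneg (x / 2 ^ k) hp.ne'
  have h3 := Int.emod_lt_of_pos (x / 2 ^ k) hp
  rw [ediv_pow_pow] at h1
  refine ⟨((x / 2 ^ k) % 2 ^ τ).toNat, ?_, ?_⟩
  · have h4 : (((x / 2 ^ k) % 2 ^ τ).toNat : ℤ) < ((2 ^ τ : ℕ) : ℤ) := by
      rw [Int.toNat_of_nonneg h2]
      push_cast
      exact h3
    exact_mod_cast h4
  · rw [Int.toNat_of_nonneg h2]
    have e : (2 : ℤ) ^ τ * (x / 2 ^ (k + τ)) = x / 2 ^ (k + τ) * 2 ^ τ := mul_comm _ _
    linarith

theorem thm (hcov : G_COV) : G_COMB := by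
  classical
  intro d τ Λ N1 N2 T g F hg hN1 hN2 hΛ X Y
  set keys : Finset (Fin d → ℕ) := F.image (key T g) with hkeys
  -- the coverings
  have hex : ∀ L : Finset (Fin d → ℤ), ∃ C : Finset (Finset (Fin d) × (Fin d → ℤ)),
      L.card ≤ 2 ^ Λ → (C.card ≤ 2 ^ (T.card + 1) * (Λ + 1) ∧
        (∀ q ∈ C, q.1 ⊆ T ∧ q.1.card = (T.card + 1) / 2 ∧ q.2 ∈ L) ∧
        ∀ x ∈ L, ∃ q ∈ C, ∀ i ∈ q.1, x i ≤ q.2 i) := by
    intro L
    by_cases h : L.card ≤ 2 ^ Λ
    · obtain ⟨C, hC⟩ := hcov d Λ T L h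
      exact ⟨C, fun _ => hC⟩
    · exact ⟨∅, fun h' => absurd h' h⟩
  choose Cf hCf using hex
  set C : (Fin d → ℕ) → (Fin d → ℤ) → Finset (Finset (Fin d) × (Fin d → ℤ)) :=
    fun κ z => Cf (Bl T τ X κ z) with hCdef
  have hblock : ∀ κ ∈ keys, ∀ z, (Bl T τ X κ z).card ≤ 2 ^ Λ := by
    intro κ hκ z
    rw [hkeys, mem_image] at hκ
    obtain ⟨j, hj, rfl⟩ := hκ
    exact card_Bl hg (hΛ j hj) X z
  have hq : ∀ (κ : Fin d → ℕ) (a : Fin d → ℤ), ∃ q : Finset (Fin d) × (Fin d → ℤ),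
      (∃ q ∈ C κ a, ∀ i ∈ q.1, a i ≤ q.2 i) → (q ∈ C κ a ∧ ∀ i ∈ q.1, a i ≤ q.2 i) := by
    intro κ a
    by_cases h : ∃ q ∈ C κ a, ∀ i ∈ q.1, a i ≤ q.2 i
    · obtain ⟨q, hq⟩ := h
      exact ⟨q, fun _ => hq⟩
    · exact ⟨(∅, 0), fun h' => absurd h' h⟩
  choose qf hqf using hq
  set H : Finset ((Fin d → ℤ) × (Fin d → ℤ)) :=
    (T.powersetCard ((T.card + 1) / 2)).biUnion (fun T' => X.biUnion (fun x0 =>
      (keys.image (drop T')).biUnion (fun κ' => ((NN T τ) ×ˢ (NN T τ)).image (fun nn =>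
        (pos T τ T' x0 κ' nn.1, pos T τ T' x0 κ' nn.2))))) with hH
  refine ⟨fun a => keys.image (fun κ => vv T a κ (qf κ a)),
    fun b => keys.biUnion (fun κ => (C κ b).image (ww T b κ)), H, ?_, ?_, ?_, ?_⟩
  · intro a
    exact card_image_le.trans hN1
  · intro b
    refine le_trans (card_biUnion_le_card_mul _ _ (2 ^ (T.card + 1) * (Λ + 1)) ?_) ?_
    · intro κ hκ
      exact card_image_le.trans (hCf _ (hblock κ hκ b)).1
    · exact Nat.mul_le_mul_right _ hN1
  · -- the number of edges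
    have h1 : H.card ≤ (T.powersetCard ((T.card + 1) / 2)).card * (X.card *
        (N2 * ((2 ^ τ + 1) ^ (d - T.card) * (2 ^ τ + 1) ^ (d - T.card)))) := by
      rw [hH]
      apply card_biUnion_le_card_mul
      intro T' hT'
      rw [mem_powersetCard] at hT'
      apply card_biUnion_le_card_mul
      intro x0 _
      refine le_trans (card_biUnion_le_card_mul _ _
        ((2 ^ τ + 1) ^ (d - T.card) * (2 ^ τ + 1) ^ (d - T.card)) ?_) ?_
      · intro κ' _
        refine card_image_le.trans ?_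
        rw [card_product, card_NN]
      · exact Nat.mul_le_mul_right _ (hN2 T' hT'.1 hT'.2)
    refine h1.trans ?_
    have h2 : (T.powersetCard ((T.card + 1) / 2)).card ≤ 2 ^ T.card := by
      rw [card_powersetCard]
      exact Nat.choose_le_two_pow _ _
    calc _ ≤ 2 ^ T.card * (X.card *
        (N2 * ((2 ^ τ + 1) ^ (d - T.card) * (2 ^ τ + 1) ^ (d - T.card)))) :=
          Nat.mul_le_mul_right _ h2
      _ = 2 ^ T.card * N2 * (2 ^ τ + 1) ^ (2 * (d - T.card)) * X.card := by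
          rw [two_mul, pow_add]
          ring
  · -- the pairs
    rintro a ha b _ ⟨j, hj, hab⟩
    set κ : Fin d → ℕ := key T g j with hκ
    have hκk : κ ∈ keys := mem_image_of_mem _ hj
    have hκT : ∀ i ∈ T, κ i = j i := by
      intro i hi
      rw [hκ]
      unfold key
      rw [if_pos hi]
    have hκN : ∀ i, i ∉ T → κ i ≤ j i ∧ j i + 1 ≤ κ i + τ := by
      intro i hi
      rw [hκ]
      unfold key
      rw [if_neg hi]
      have := hg (j i)
      omega
    have f1 : ∀ i ∈ T, a i / 2 ^ (κ i) = 2 * (a i / 2 ^ (κ i + 1)) ∧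
        b i / 2 ^ (κ i) = 2 * (a i / 2 ^ (κ i + 1)) + 1 ∧
        b i / 2 ^ (κ i + 1) = a i / 2 ^ (κ i + 1) := by
      intro i hi
      obtain ⟨h1, h2⟩ := hab i
      rw [← hκT i hi] at h1 h2
      have h3 := ediv_pow_two (a i) (κ i)
      have h4 := ediv_pow_two (b i) (κ i)
      rw [← h1] at h4
      generalize a i / 2 ^ (κ i) = A at *
      generalize b i / 2 ^ (κ i) = B at *
      generalize a i / 2 ^ (κ i + 1) = c at *
      refine ⟨by omega, by omega, h1.symm⟩
    have f2 : ∀ i, i ∉ T → a i / 2 ^ (κ i + τ) = b i / 2 ^ (κ i + τ) ∧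
        a i / 2 ^ (κ i) < b i / 2 ^ (κ i) := by
      intro i hi
      obtain ⟨h1, h2⟩ := hab i
      obtain ⟨h3, h4⟩ := hκN i hi
      exact ⟨ediv_eq_of_le h1 h4, ediv_lt_of_le h2 h3⟩
    have hBl : Bl T τ X κ a = Bl T τ X κ b := by
      ext x
      rw [mem_Bl, mem_Bl]
      constructor
      · rintro ⟨h1, h2, h3⟩
        refine ⟨h1, fun i hi => ?_, fun i hi => ?_⟩
        · rw [(f1 i hi).2.2]
          exact h2 i hi
        · rw [← (f2 i hi).1]
          exact h3 i hi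
      · rintro ⟨h1, h2, h3⟩
        refine ⟨h1, fun i hi => ?_, fun i hi => ?_⟩
        · rw [← (f1 i hi).2.2]
          exact h2 i hi
        · rw [(f2 i hi).1]
          exact h3 i hi
    have haB : a ∈ Bl T τ X κ a := mem_Bl.mpr ⟨ha, fun i hi => (f1 i hi).1, fun _ _ => rfl⟩
    obtain ⟨_, hC2, hC3⟩ := hCf (Bl T τ X κ a) (hblock κ hκk a)
    obtain ⟨hq1, hq2⟩ := hqf κ a (hC3 a haB)
    set q := qf κ a with hqdef
    obtain ⟨hqT, hqc, hqB⟩ := hC2 q hq1
    rw [mem_Bl] at hqB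
    obtain ⟨hqX, hqB1, hqB2⟩ := hqB
    refine ⟨vv T a κ q, mem_image_of_mem (fun κ => vv T a κ (qf κ a)) hκk, ww T b κ q, ?_, ?_, ?_⟩
    · rw [mem_biUnion]
      refine ⟨κ, hκk, mem_image_of_mem _ ?_⟩
      have : C κ b = C κ a := by
        rw [hCdef]
        simp only
        rw [hBl]
      rw [this]
      exact hq1
    · -- the edge
      have hn : ∀ i, ∃ n : ℕ, n < 2 ^ τ ∧
          a i / 2 ^ (κ i) = (a i / 2 ^ (κ i + τ)) * 2 ^ τ + (n : ℤ) := fun i => offset _ _ _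
      have hn' : ∀ i, ∃ n : ℕ, n < 2 ^ τ ∧
          b i / 2 ^ (κ i) = (b i / 2 ^ (κ i + τ)) * 2 ^ τ + (n : ℤ) := fun i => offset _ _ _
      choose n hn1 hn2 using hn
      choose n' hn1' hn2' using hn'
      rw [hH]
      rw [mem_biUnion]
      refine ⟨q.1, mem_powersetCard.mpr ⟨hqT, hqc⟩, ?_⟩
      rw [mem_biUnion]
      refine ⟨q.2, hqX, ?_⟩
      rw [mem_biUnion]
      refine ⟨drop q.1 κ, mem_image_of_mem _ hκk, ?_⟩
      rw [mem_image]
      refine ⟨(fun i => if i ∈ T then 0 else n i + 1, fun i => if i ∈ T then 0 else n' i), ?_, ?_⟩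
      · rw [mem_product, mem_NN, mem_NN]
        constructor
        · intro i
          constructor
          · intro hi
            simp only [if_pos hi]
          · intro hi
            simp only [if_neg hi]
            exact hn1 i
        · intro i
          constructor
          · intro hi
            simp only [if_pos hi]
          · intro hi
            simp only [if_neg hi]
            exact (hn1' i).le
      · have hdrop : ∀ i, i ∉ q.1 → drop q.1 κ i = κ i := by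
          intro i hi
          unfold drop
          rw [if_neg hi]
        have hx0 : ∀ i ∈ T, q.2 i / 2 ^ (κ i + 1) = a i / 2 ^ (κ i + 1) := by
          intro i hi
          rw [← ediv_pow_two, hqB1 i hi]
          omega
        apply Prod.ext
        · funext i
          show pos T τ q.1 q.2 (drop q.1 κ) (fun i => if i ∈ T then 0 else n i + 1) i =
            vv T a κ q i
          unfold pos vv
          by_cases hi : i ∈ q.1
          · rw [if_pos hi, if_pos hi]
          · rw [if_neg hi, if_neg hi, hdrop i hi]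
            by_cases hT : i ∈ T
            · rw [if_pos hT, if_pos hT, hx0 i hT]
            · rw [if_neg hT, if_neg hT]
              simp only
              rw [if_neg hT, hqB2 i hT, hn2 i]
              push_cast
              ring
        · funext i
          show pos T τ q.1 q.2 (drop q.1 κ) (fun i => if i ∈ T then 0 else n' i) i =
            ww T b κ q i
          unfold pos ww
          by_cases hi : i ∈ q.1
          · rw [if_pos hi, if_pos hi]
          · rw [if_neg hi, if_neg hi, hdrop i hi]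
            by_cases hT : i ∈ T
            · rw [if_pos hT, if_pos hT, hx0 i hT, (f1 i hT).2.2]
            · rw [if_neg hT, if_neg hT]
              simp only
              rw [if_neg hT, hqB2 i hT, hn2' i, (f2 i hT).1]
    · -- the inequalities
      intro i
      unfold vv ww
      by_cases hi : i ∈ q.1
      · rw [if_pos hi, if_pos hi]
        have hT := hqT hi
        refine ⟨hq2 i hi, le_rfl, ?_⟩
        have h1 := hqB1 i hT
        have h2 := (f1 i hT).2.1
        by_contra hc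
        push Not at hc
        have h3 := Int.ediv_le_ediv (show (0 : ℤ) < 2 ^ (κ i) by positivity) hc.le
        omega
      · rw [if_neg hi, if_neg hi]
        by_cases hT : i ∈ T
        · rw [if_pos hT, if_pos hT]
          obtain ⟨h1, h2, h3⟩ := f1 i hT
          refine ⟨(lt_of_ediv h1).le, ?_, ?_⟩
          · rw [h3]
          · rw [h3]
            exact ge_of_ediv h2
        · rw [if_neg hT, if_neg hT]
          refine ⟨(lt_of_ediv rfl).le, ?_, ge_of_ediv rfl⟩
          apply mul_le_mul_of_nonneg_right _ (by positivity)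
          have := (f2 i hT).2
          omega

end Pool.Agent.Helper94.UQ.PkCOMB
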